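import Pool.Agent.Lib.P2a19dr.Crit

/-!
Endomorphisms of rank one and groups generated by rational curves over an algebraically closed field.
-/

set_option autoImplicit false

namespace Pool.Agent.P2a19dr

open Module Pool.Agent.P2a19db

section laurent

variable {F : Type*} [Field F] [IsAlgClosed F]

open Polynomial in
/-- a polynomial without nonzero roots is a monomial -/
lemma monomial_of_no_root {q : Polynomial F} (h : ∀ t : F, t ≠ 0 → q.eval t ≠ 0) :
    ∃ (α : F) (m : ℕ), α ≠ 0 ∧ q = C α * X ^ m := by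
  have hq : q ≠ 0 := by
    rintro rfl
    exact h 1 one_ne_zero (by simp)
  obtain ⟨r, hr, hr'⟩ := Polynomial.exists_eq_pow_rootMultiplicity_mul_and_not_dvd q hq 0
  rw [C_0, sub_zero] at hr hr'
  have hr0 : r.eval 0 ≠ 0 := by
    intro h0
    apply hr'
    have := Polynomial.dvd_iff_isRoot.2 (show IsRoot r 0 from h0)
    rwa [C_0, sub_zero] at this
  have hdeg : r.degree = 0 := by
    by_contra hd
    obtain ⟨t, ht⟩ := IsAlgClosed.exists_root r hd
    by_cases ht0 : t = 0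
    · subst ht0
      exact hr0 ht
    · apply h t ht0
      rw [hr, eval_mul, show r.eval t = 0 from ht, mul_zero]
  obtain ⟨α, hα⟩ : ∃ α, r = C α := ⟨_, Polynomial.eq_C_of_degree_eq_zero hdeg⟩
  refine ⟨α, q.rootMultiplicity 0, ?_, ?_⟩
  · rintro rfl
    rw [hα] at hr0
    simp at hr0
  · conv_lhs => rw [hr, hα]
    rw [mul_comm]

open Polynomial in
/-- a nonconstant Laurent polynomial omits at most one value -/
lemma omits_one {u : F → F} {p : Polynomial F} {k : ℕ} (hu : ∀ t : F, t ≠ 0 → t ^ k * u t = p.eval t)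
    (hne : ∃ t : F, t ≠ 0 ∧ u t ≠ u 1) : ∃ c₀ : F, ∀ c : F, c ≠ c₀ → ∃ t : F, t ≠ 0 ∧ u t = c := by
  by_contra hcon
  push Not at hcon
  obtain ⟨c, -, hc⟩ := hcon 0
  obtain ⟨c', hcc, hc'⟩ := hcon c
  have key : ∀ c : F, (∀ t : F, t ≠ 0 → u t ≠ c) →
      ∃ (α : F) (m : ℕ), α ≠ 0 ∧ p - C c * X ^ k = C α * X ^ m := by
    intro c hc
    refine monomial_of_no_root fun t ht h0 => hc t ht ?_
    rw [eval_sub, ← hu t ht, eval_mul, eval_C, eval_pow, eval_X] at h0
    have h1 : t ^ k * (u t - c) = 0 := by rw [← h0]; ring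
    rcases mul_eq_zero.1 h1 with h2 | h2
    · exact absurd h2 (pow_ne_zero _ ht)
    · exact sub_eq_zero.1 h2
  obtain ⟨α, m, hα, h1⟩ := key c hc
  obtain ⟨α', m', hα', h2⟩ := key c' hc'
  have h3 : C α * X ^ m - C α' * X ^ m' = C (c' - c) * X ^ k := by
    rw [← h1, ← h2, C_sub]
    ring
  have hco : ∀ j : ℕ, (if j = m then α else 0) - (if j = m' then α' else 0) =
      (if j = k then c' - c else 0) := by
    intro j
    have := congrArg (fun q : Polynomial F => q.coeff j) h3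
    simpa only [coeff_sub, coeff_C_mul_X_pow] using this
  have hmk : m = k := by
    by_contra hmk
    have a1 := hco m
    rw [if_pos rfl, if_neg hmk] at a1
    by_cases hmm : m = m'
    · have a2 := hco k
      rw [if_neg (fun h => hmk h.symm), if_neg (fun h => hmk (hmm.trans h.symm)), if_pos rfl] at a2
      exact hcc (sub_eq_zero.1 (by rw [← a2]; ring)).symm.symm
    · rw [if_neg hmm, sub_zero] at a1
      exact hα a1
  subst hmk
  obtain ⟨t, ht, htne⟩ := hne
  apply htne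
  have hval : ∀ t : F, t ≠ 0 → u t = c + α := by
    intro t ht
    have a1 : t ^ m * u t = (C (c + α) * X ^ m : Polynomial F).eval t := by
      rw [hu t ht]
      congr 1
      rw [C_add, add_mul, ← h1]
      ring
    rw [eval_mul, eval_C, eval_pow, eval_X, mul_comm (c + α)] at a1
    exact mul_left_cancel₀ (pow_ne_zero _ ht) a1
  rw [hval t ht, hval 1 one_ne_zero]

end laurent

variable {F V : Type*} [Field F] [AddCommGroup V] [Module F V] [FiniteDimensional F V]

/-- `c` is a rational curve in `G` through the identity: `c t` is in `G` for `t ≠ 0`, `c 1 = 1`, and the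
matrix entries of `c t` are Laurent polynomials in `t` -/
def IsRatCurve (G : Subgroup (V ≃ₗ[F] V)) (c : F → (V ≃ₗ[F] V)) : Prop :=
  c 1 = 1 ∧ (∀ t : F, t ≠ 0 → c t ∈ G) ∧
    ∀ (φ : V →ₗ[F] F) (x : V), ∃ (p : Polynomial F) (k : ℕ), ∀ t : F, t ≠ 0 →
      t ^ k * φ (c t x) = p.eval t

/-- `G` is generated by rational curves through the identity -/
def RatGen (G : Subgroup (V ≃ₗ[F] V)) : Prop :=
  ∀ g ∈ G, g ∈ Subgroup.closure {g : V ≃ₗ[F] V | ∃ (c : F → (V ≃ₗ[F] V)) (t : F),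
    IsRatCurve G c ∧ t ≠ 0 ∧ c t = g}

lemma exists_zero {w : V} {f : V →ₗ[F] F} (hn : 2 ≤ finrank F V) (hw : w ≠ 0) (hf : f ≠ 0)
    {G : Subgroup (V ≃ₗ[F] V)} (h1 : TransOn G 1) : ∃ g ∈ G, f (g w) = 0 := by
  have d1 := Module.Dual.finrank_ker_add_one_of_ne_zero hf
  have h2 : LinearMap.ker f ≠ ⊥ := by
    intro h0
    rw [h0, finrank_bot] at d1
    omega
  obtain ⟨x, hx, hx0⟩ := (Submodule.ne_bot_iff _).1 h2
  obtain ⟨g, hg, t, ht, hgt⟩ := line_trans h1 hw hx0
  exact ⟨g, hg, by rw [hgt, map_smul, LinearMap.mem_ker.1 hx, smul_zero]⟩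

omit [FiniteDimensional F V] in
lemma exists_nonzero {w : V} {f : V →ₗ[F] F} (hw : w ≠ 0) (hf : f ≠ 0)
    {G : Subgroup (V ≃ₗ[F] V)} (h1 : TransOn G 1) : ∃ g ∈ G, f (g w) ≠ 0 := by
  obtain ⟨x, hx⟩ := exists_ne hf
  have hx0 : x ≠ 0 := by
    rintro rfl
    exact hx (map_zero f)
  obtain ⟨g, hg, t, ht, hgt⟩ := line_trans h1 hw hx0
  refine ⟨g, hg, ?_⟩
  rw [hgt, map_smul, smul_eq_mul]
  exact mul_ne_zero ht hx

/-- The criterion for groups generated by rational curves over an algebraically closed field. -/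
theorem crit_alg [IsAlgClosed F] {a : Module.End F V} (hn : 2 ≤ finrank F V)
    (ha : finrank F (LinearMap.range a) = 1) {G : Subgroup (V ≃ₗ[F] V)} (hG : RatGen G) :
    IsAutPair a G ↔ TransOn G 1 ∧ TransOn G (finrank F V - 1) := by
  rw [crit hn ha]
  refine ⟨fun h => ⟨h.1, h.2.1⟩, fun ⟨h1, h2⟩ => ⟨h1, h2, ?_⟩⟩
  obtain ⟨w, f, hw, hf, rfl⟩ := exists_form ha
  -- a curve on which the trace is not constant
  obtain ⟨g, hg, h, hh, c, hc, t, ht, hne⟩ : ∃ g ∈ G, ∃ h ∈ G, ∃ c : F → (V ≃ₗ[F] V),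
      IsRatCurve G c ∧ ∃ t : F, t ≠ 0 ∧ f (g (c t (h w))) ≠ f (g (h w)) := by
    by_contra hcon
    push Not at hcon
    have key : ∀ k ∈ Subgroup.closure {g : V ≃ₗ[F] V | ∃ (c : F → (V ≃ₗ[F] V)) (t : F),
        IsRatCurve G c ∧ t ≠ 0 ∧ c t = g}, k ∈ G ∧ ∀ g ∈ G, ∀ h ∈ G, f (g (k (h w))) = f (g (h w)) := by
      intro k hk
      induction hk using Subgroup.closure_induction with
      | mem x hx =>
        obtain ⟨c, t, hc, ht, rfl⟩ := hx
        exact ⟨hc.2.1 t ht, fun g hg h hh => hcon g hg h hh c hc t ht⟩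
      | one => exact ⟨one_mem _, fun g hg h hh => rfl⟩
      | mul x y hx hy ihx ihy =>
        refine ⟨mul_mem ihx.1 ihy.1, fun g hg h hh => ?_⟩
        have a1 := ihx.2 g hg (y * h) (mul_mem ihy.1 hh)
        have a2 := ihy.2 g hg h hh
        exact a1.trans a2
      | inv x hx ihx =>
        refine ⟨inv_mem ihx.1, fun g hg h hh => ?_⟩
        have a1 := ihx.2 g hg (x⁻¹ * h) (mul_mem (inv_mem ihx.1) hh)
        have e1 : x ((x⁻¹ * h : V ≃ₗ[F] V) w) = h w := by
          rw [← LinearEquiv.mul_apply, mul_inv_cancel_left]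
        rw [e1] at a1
        exact a1.symm
    obtain ⟨g0, hg0, h0⟩ := exists_zero hn hw hf h1
    obtain ⟨g1, hg1, h1'⟩ := exists_nonzero hw hf h1
    have b0 := (key g0 (hG g0 hg0)).2 1 (one_mem _) 1 (one_mem _)
    have b1 := (key g1 (hG g1 hg1)).2 1 (one_mem _) 1 (one_mem _)
    apply h1'
    have c0 : f (g0 w) = f w := b0
    have c1 : f (g1 w) = f w := b1
    rw [c1, ← c0, h0]
  obtain ⟨p, k, hp⟩ := hc.2.2 (f ∘ₗ (g : V →ₗ[F] V)) (h w)
  obtain ⟨c₀, hc₀⟩ := omits_one (u := fun t => f (g (c t (h w)))) (p := p) (k := k) hp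
    ⟨t, ht, by
      rw [hc.1]
      exact hne⟩
  have hT : ∀ d : F, d ≠ c₀ → d ∈ traces (f.smulRight w) G := by
    intro d hd
    obtain ⟨t, ht, hu⟩ := hc₀ d hd
    rw [← hu]
    exact mem_traces (mul_mem (mul_mem hg (hc.2.1 t ht)) hh)
  intro d hd
  classical
  have hinf : Infinite F := IsAlgClosed.instInfinite
  obtain ⟨s, hs⟩ := Infinite.exists_notMem_finset ({0, c₀, d / c₀} : Finset F)
  simp only [Finset.mem_insert, Finset.mem_singleton, not_or] at hs
  obtain ⟨hs0, hs1, hs2⟩ := hs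
  have e : d = s * (d / s) := by
    field_simp
  rw [e]
  refine mul_mem (Submonoid.subset_closure (hT s hs1)) (Submonoid.subset_closure (hT _ ?_))
  intro h3
  by_cases hc0 : c₀ = 0
  · rw [hc0] at h3
    exact (div_ne_zero hd hs0) h3
  · apply hs2
    rw [← h3]
    field_simp

end Pool.Agent.P2a19dr
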