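import Pool.Agent.Lib.P2a19db.Criterion

/-!
Endomorphisms of rank one.
-/

set_option autoImplicit false

namespace Pool.Agent.P2a19dr

open Module Pool.Agent.P2a19db

variable {F V : Type*} [Field F] [AddCommGroup V] [Module F V] [FiniteDimensional F V]

/-- the traces of the products of `a` with the elements of `G` -/
def traces (a : Module.End F V) (G : Subgroup (V ≃ₗ[F] V)) : Set F :=
  {t | ∃ g ∈ G, LinearMap.trace F V ((g : V →ₗ[F] V) ∘ₗ a) = t}

lemma exists_form {a : Module.End F V} (h : finrank F (LinearMap.range a) = 1) :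
    ∃ (w : V) (f : V →ₗ[F] F), w ≠ 0 ∧ f ≠ 0 ∧ a = f.smulRight w := by
  obtain ⟨w, hw, hall⟩ := finrank_eq_one_iff'.1 h
  have hw' : (w : V) ∉ (⊥ : Submodule F V) := by
    intro h0
    rw [Submodule.mem_bot] at h0
    exact hw (Subtype.ext h0)
  obtain ⟨φ, hφ, -⟩ := Submodule.exists_le_ker_of_notMem hw'
  let f : V →ₗ[F] F := (φ w)⁻¹ • (φ ∘ₗ a)
  have hf : ∀ x, a x = f x • (w : V) := by
    intro x
    obtain ⟨c, hc⟩ := hall ⟨a x, ⟨x, rfl⟩⟩
    have hc' : c • (w : V) = a x := congrArg Subtype.val hc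
    have : f x = c := by
      simp only [f, LinearMap.smul_apply, LinearMap.comp_apply, smul_eq_mul]
      rw [← hc', map_smul, smul_eq_mul]
      field_simp
    rw [this, hc']
  refine ⟨w, f, fun h0 => hw' (by rw [h0]; exact Submodule.zero_mem _), ?_, ?_⟩
  · intro h0
    have : a = 0 := by
      ext x
      rw [hf, h0]
      simp
    rw [this, LinearMap.range_zero, finrank_bot] at h
    exact absurd h zero_ne_one
  · ext x
    rw [hf]
    rfl

lemma trace_form (w : V) (f : V →ₗ[F] F) (g : V ≃ₗ[F] V) :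
    LinearMap.trace F V ((g : V →ₗ[F] V) ∘ₗ f.smulRight w) = f (g w) := by
  have : (g : V →ₗ[F] V) ∘ₗ f.smulRight w = f.smulRight (g w) := by
    ext x
    simp
  rw [this, LinearMap.trace_smulRight]

lemma mem_traces {w : V} {f : V →ₗ[F] F} {G : Subgroup (V ≃ₗ[F] V)} {g : V ≃ₗ[F] V} (hg : g ∈ G) :
    f (g w) ∈ traces (f.smulRight w) G := ⟨g, hg, trace_form w f g⟩

omit [FiniteDimensional F V] in
lemma aga (w : V) (f : V →ₗ[F] F) (g : V ≃ₗ[F] V) :
    ((f.smulRight w : Module.End F V) * (g : V →ₗ[F] V) * f.smulRight w : Module.End F V) =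
      f (g w) • (f.smulRight w : Module.End F V) := by
  ext x
  simp only [Module.End.mul_apply, LinearMap.smulRight_apply, LinearMap.smul_apply, map_smul,
    LinearEquiv.coe_coe, smul_smul]
  rw [mul_comm]

lemma mem_form {w : V} {f : V →ₗ[F] F} {G : Subgroup (V ≃ₗ[F] V)} {x : Module.End F V}
    (hx : x ∈ gen (f.smulRight w) G) :
    x ∈ units G ∨ ∃ g ∈ G, ∃ h ∈ G, ∃ c ∈ Submonoid.closure (traces (f.smulRight w) G),
      x = c • ((g : V →ₗ[F] V) * (f.smulRight w : Module.End F V) * (h : V →ₗ[F] V)) := by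
  unfold gen at hx
  induction hx using Subsemigroup.closure_induction with
  | mem x hx =>
    rcases hx with hx | hx
    · right
      refine ⟨1, one_mem _, 1, one_mem _, 1, one_mem _, ?_⟩
      rw [one_smul, Set.mem_singleton_iff.1 hx]
      ext v
      rfl
    · exact Or.inl hx
  | mul x y hx hy ihx ihy =>
    rcases ihx with ⟨g, hg, rfl⟩ | ⟨g, hg, h, hh, c, hc, rfl⟩
    · rcases ihy with ⟨g', hg', rfl⟩ | ⟨g', hg', h', hh', c', hc', rfl⟩
      · left
        exact ⟨g * g', mul_mem hg hg', coe_mul' _ _⟩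
      · right
        refine ⟨g * g', mul_mem hg hg', h', hh', c', hc', ?_⟩
        rw [coe_mul', mul_smul_comm]
        simp only [mul_assoc]
    · rcases ihy with ⟨g', hg', rfl⟩ | ⟨g', hg', h', hh', c', hc', rfl⟩
      · right
        refine ⟨g, hg, h * g', mul_mem hh hg', c, hc, ?_⟩
        rw [coe_mul', smul_mul_assoc]
        simp only [mul_assoc]
      · right
        refine ⟨g, hg, h', hh', c * (f ((h * g' : V ≃ₗ[F] V) w)) * c',
          mul_mem (mul_mem hc (Submonoid.subset_closure (mem_traces (mul_mem hh hg')))) hc', ?_⟩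
        have e : ((g : V →ₗ[F] V) * (f.smulRight w : Module.End F V) * (h : V →ₗ[F] V)) *
            ((g' : V →ₗ[F] V) * (f.smulRight w : Module.End F V) * (h' : V →ₗ[F] V)) =
            (g : V →ₗ[F] V) * ((f.smulRight w : Module.End F V) *
              ((h * g' : V ≃ₗ[F] V) : V →ₗ[F] V) * (f.smulRight w : Module.End F V)) *
                (h' : V →ₗ[F] V) := by
          rw [coe_mul']
          simp only [mul_assoc]
        rw [smul_mul_assoc, mul_smul_comm, e, aga, mul_smul_comm, smul_mul_assoc, smul_smul,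
          smul_smul]
        congr 1
        ring

lemma sandwich {w : V} {f : V →ₗ[F] F} {G : Subgroup (V ≃ₗ[F] V)} {x : Module.End F V}
    (hx : x ∈ gen (f.smulRight w) G) :
    ∃ c ∈ Submonoid.closure (traces (f.smulRight w) G),
      (f.smulRight w : Module.End F V) * x * f.smulRight w = c • (f.smulRight w : Module.End F V) := by
  rcases mem_form hx with ⟨g, hg, rfl⟩ | ⟨g, hg, h, hh, c, hc, rfl⟩
  · exact ⟨f (g w), Submonoid.subset_closure (mem_traces hg), aga w f g⟩
  · refine ⟨c * f (g w) * f (h w), mul_mem (mul_mem hc (Submonoid.subset_closure (mem_traces hg)))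
      (Submonoid.subset_closure (mem_traces hh)), ?_⟩
    have e : (f.smulRight w : Module.End F V) *
        ((g : V →ₗ[F] V) * (f.smulRight w : Module.End F V) * (h : V →ₗ[F] V)) * f.smulRight w =
        ((f.smulRight w : Module.End F V) * (g : V →ₗ[F] V) * (f.smulRight w : Module.End F V)) *
          (h : V →ₗ[F] V) * f.smulRight w := by
      simp only [mul_assoc]
    rw [mul_smul_comm, smul_mul_assoc, e, aga, smul_mul_assoc, smul_mul_assoc, aga, smul_smul,
      smul_smul]

lemma exists_mid {w : V} {f : V →ₗ[F] F} {G : Subgroup (V ≃ₗ[F] V)} {c : F}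
    (hc : c ∈ Submonoid.closure (traces (f.smulRight w) G)) :
    c = 1 ∨ ∃ b ∈ gen (f.smulRight w) G,
      (f.smulRight w : Module.End F V) * b * f.smulRight w = c • (f.smulRight w : Module.End F V) := by
  induction hc using Submonoid.closure_induction with
  | mem x hx =>
    obtain ⟨g, hg, rfl⟩ := hx
    right
    refine ⟨(g : V →ₗ[F] V), g_mem hg, ?_⟩
    rw [trace_form]
    exact aga w f g
  | one => exact Or.inl rfl
  | mul x y hx hy ihx ihy =>
    rcases ihx with rfl | ⟨b, hb, hb'⟩
    · rw [one_mul]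
      exact ihy
    · rcases ihy with rfl | ⟨b', hb1, hb1'⟩
      · rw [mul_one]
        exact Or.inr ⟨b, hb, hb'⟩
      · right
        refine ⟨b * f.smulRight w * b', mul_mem (mul_mem hb a_mem) hb1, ?_⟩
        have e : (f.smulRight w : Module.End F V) * (b * f.smulRight w * b') * f.smulRight w =
            ((f.smulRight w : Module.End F V) * b * f.smulRight w) * b' * f.smulRight w := by
          simp only [mul_assoc]
        rw [e, hb', smul_mul_assoc, smul_mul_assoc, hb1', smul_smul]

/-! ### transitivity -/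

omit [FiniteDimensional F V] in
lemma line_trans {G : Subgroup (V ≃ₗ[F] V)} (h : TransOn G 1) {x y : V} (hx : x ≠ 0) (hy : y ≠ 0) :
    ∃ g ∈ G, ∃ t : F, t ≠ 0 ∧ g x = t • y := by
  obtain ⟨g, hg, he⟩ := h (Submodule.span F {x}) (Submodule.span F {y}) (finrank_span_singleton hx)
    (finrank_span_singleton hy)
  have h1 : g x ∈ Submodule.span F {y} := by
    rw [← he]
    exact ⟨x, Submodule.mem_span_singleton_self x, rfl⟩
  obtain ⟨t, ht⟩ := Submodule.mem_span_singleton.1 h1
  refine ⟨g, hg, t, ?_, ht.symm⟩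
  rintro rfl
  rw [zero_smul] at ht
  exact hx (g.map_eq_zero_iff.1 ht.symm)

lemma hyper_trans {G : Subgroup (V ≃ₗ[F] V)} (h : TransOn G (finrank F V - 1)) {f φ : V →ₗ[F] F}
    (hf : f ≠ 0) (hφ : φ ≠ 0) : ∃ g ∈ G, ∃ u : F, u ≠ 0 ∧ ∀ x, φ x = u * f (g x) := by
  have d1 := Module.Dual.finrank_ker_add_one_of_ne_zero hf
  have d2 := Module.Dual.finrank_ker_add_one_of_ne_zero hφ
  obtain ⟨g, hg, he⟩ := h (LinearMap.ker φ) (LinearMap.ker f) (by omega) (by omega)
  obtain ⟨y, hy⟩ : ∃ y, f y ≠ 0 := by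
    by_contra hcon
    push Not at hcon
    exact hf (LinearMap.ext hcon)
  have hker : ∀ x, f (g x) = 0 → φ x = 0 := by
    intro x hx
    have h1 : g x ∈ (LinearMap.ker φ).map (g : V →ₗ[F] V) := by
      rw [he]
      exact hx
    obtain ⟨z, hz, hzx⟩ := h1
    have : z = x := g.injective hzx
    rw [← this]
    exact hz
  have key : ∀ x, φ x = (φ (g.symm y) / f y) * f (g x) := by
    intro x
    have h1 : f (g (x - (f (g x) / f y) • g.symm y)) = 0 := by
      rw [map_sub, map_smul, LinearEquiv.apply_symm_apply, map_sub, map_smul, smul_eq_mul]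
      field_simp
      ring
    have h2 := hker _ h1
    rw [map_sub, map_smul, smul_eq_mul, sub_eq_zero] at h2
    rw [h2]
    ring
  refine ⟨g, hg, φ (g.symm y) / f y, ?_, key⟩
  intro h0
  apply hφ
  ext x
  rw [key, h0, zero_mul]
  rfl

end Pool.Agent.P2a19dr
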