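import Pool.Agent.Lib.P2a19dr.Basic

/-!
The criterion for endomorphisms of rank one.
-/

set_option autoImplicit false

namespace Pool.Agent.P2a19dr

open Module Pool.Agent.P2a19db

variable {F V : Type*} [Field F] [AddCommGroup V] [Module F V] [FiniteDimensional F V]

lemma not_unit {a : Module.End F V} (hn : 2 ≤ finrank F V) (h : finrank F (LinearMap.range a) = 1) :
    ¬ IsUnit a := by
  intro hu
  have h1 := (LinearMap.isUnit_iff_range_eq_top a).1 hu
  rw [h1, finrank_top] at h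
  omega

lemma finrank_ker {a : Module.End F V} (h : finrank F (LinearMap.range a) = 1) :
    finrank F (LinearMap.ker a) = finrank F V - 1 := by
  have := LinearMap.finrank_range_add_finrank_ker a
  omega

omit [FiniteDimensional F V] in
lemma exists_ne {f : V →ₗ[F] F} (hf : f ≠ 0) : ∃ y, f y ≠ 0 := by
  by_contra hcon
  push Not at hcon
  exact hf (LinearMap.ext hcon)

/-- The criterion. -/
theorem crit {a : Module.End F V} (hn : 2 ≤ finrank F V) (ha : finrank F (LinearMap.range a) = 1)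
    (G : Subgroup (V ≃ₗ[F] V)) :
    IsAutPair a G ↔ TransOn G 1 ∧ TransOn G (finrank F V - 1) ∧
      ∀ c : F, c ≠ 0 → c ∈ Submonoid.closure (traces a G) := by
  have hu := not_unit hn ha
  have hc := criterion hu G
  rw [ha, finrank_ker ha] at hc
  obtain ⟨w, f, hw, hf, rfl⟩ := exists_form ha
  set a : Module.End F V := f.smulRight w with haw
  have ha0 : a ≠ 0 := by
    intro h0
    rw [h0, LinearMap.range_zero, finrank_bot] at ha
    exact absurd ha zero_ne_one
  constructor
  · intro hp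
    obtain ⟨h1, h2, -⟩ := hc.1 hp
    refine ⟨h1, h2, fun c hc0 => ?_⟩
    obtain ⟨x, hx⟩ := exists_ne hf
    have hx0 : x ≠ 0 := by
      rintro rfl
      exact hx (map_zero f)
    obtain ⟨g, hg, t, ht, hgt⟩ := line_trans h1 hw hx0
    have hfg : f (g w) ≠ 0 := by
      rw [hgt, map_smul, smul_eq_mul]
      exact mul_ne_zero ht hx
    set d : F := c / (f (g w) * f (g w)) with hd
    have hd0 : d ≠ 0 := div_ne_zero hc0 (mul_ne_zero hfg hfg)
    let s : V ≃ₗ[F] V := LinearEquiv.smulOfNeZero F V d hd0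
    have hs : ((s : V →ₗ[F] V) * a : Module.End F V) = d • a := by
      ext v
      rfl
    have hmem : (d • a : Module.End F V) ∈ (gen a ⊤ : Set (Module.End F V)) \ units ⊤ := by
      refine ⟨by rw [← hs]; exact mul_mem (g_mem (Subgroup.mem_top s)) a_mem, ?_⟩
      have hker : LinearMap.ker a ≠ ⊥ := fun h => hu ((LinearMap.isUnit_iff_ker_eq_bot a).2 h)
      obtain ⟨v, hv, hv0⟩ := (Submodule.ne_bot_iff _).1 hker
      refine not_unit_of_kernel hv0 ?_ _
      rw [LinearMap.smul_apply, LinearMap.mem_ker.1 hv, smul_zero]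
    have hp' := hp
    unfold IsAutPair at hp'
    rw [← hp'] at hmem
    obtain ⟨c', hc', he⟩ := sandwich (mul_mem (mul_mem (g_mem (a := a) hg) hmem.1) (g_mem hg))
    have e : a * ((g : V →ₗ[F] V) * (d • a) * (g : V →ₗ[F] V)) * a =
        d • ((a * (g : V →ₗ[F] V) * a) * (g : V →ₗ[F] V) * a) := by
      simp only [mul_smul_comm, smul_mul_assoc, mul_assoc]
    rw [← haw] at he
    rw [e, haw, aga, smul_mul_assoc, smul_mul_assoc, aga, smul_smul, smul_smul, ← haw] at he
    have h3 : d * (f (g w) * f (g w)) = c' := by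
      by_contra hne
      have h4 : (d * f (g w) * f (g w) - c') • a = 0 := by
        rw [sub_smul, he, sub_self]
      rcases smul_eq_zero.1 h4 with h5 | h5
      · apply hne
        rw [← sub_eq_zero, ← h5]
        ring
      · exact ha0 h5
    have h6 : d * (f (g w) * f (g w)) = c := div_mul_cancel₀ _ (mul_ne_zero hfg hfg)
    rw [← h6, h3]
    exact hc'
  · rintro ⟨h1, h2, h3⟩
    refine hc.2 ⟨h1, h2, ?_⟩
    intro g hg hr
    have e1 : a * (g : V →ₗ[F] V) * a = f (g w) • a := aga w f g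
    rw [e1] at hr ⊢
    have hne : f (g w) ≠ 0 := by
      intro h0
      rw [h0, zero_smul, LinearMap.range_zero, finrank_bot, ha] at hr
      exact absurd hr zero_ne_one
    rcases exists_mid (h3 _ (inv_ne_zero hne)) with h4 | ⟨b, hb, hb'⟩
    · refine ⟨(g : V →ₗ[F] V), g_mem hg, ?_⟩
      have h5 : f (g w) = 1 := by rw [← inv_inv (f (g w)), h4, inv_one]
      rw [h5, one_smul, e1, h5, one_smul]
    · refine ⟨b, hb, ?_⟩
      rw [← haw] at hb'
      rw [smul_mul_assoc, smul_mul_assoc, mul_smul_comm, hb', smul_smul, smul_smul]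
      congr 1
      field_simp

/-- The quotients of the nonzero traces generate the multiplicative group of the field. -/
theorem traces_generate {a : Module.End F V} (hn : 2 ≤ finrank F V)
    (ha : finrank F (LinearMap.range a) = 1) {G : Subgroup (V ≃ₗ[F] V)} (h1 : TransOn G 1)
    (h2 : TransOn G (finrank F V - 1)) (u : Fˣ) :
    u ∈ Subgroup.closure {u : Fˣ | ∃ s ∈ traces a G, ∃ t ∈ traces a G, (u : F) = s / t} := by
  obtain ⟨w, f, hw, hf, rfl⟩ := exists_form ha
  set Λ := Subgroup.closure {u : Fˣ | ∃ s ∈ traces (f.smulRight w) G,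
    ∃ t ∈ traces (f.smulRight w) G, (u : F) = s / t} with hΛ
  -- two independent functionals and vectors
  obtain ⟨x, y, φ, ψ, e11, e12, e21, e22⟩ : ∃ (x y : V) (φ ψ : V →ₗ[F] F), φ x = 1 ∧ φ y = 0 ∧
      ψ x = 0 ∧ ψ y = 1 := by
    let b := finBasis F V
    let i : Fin (finrank F V) := ⟨0, by omega⟩
    let j : Fin (finrank F V) := ⟨1, by omega⟩
    have hij : i ≠ j := fun h => by simp [i, j] at h
    refine ⟨b i, b j, b.coord i, b.coord j, ?_, ?_, ?_, ?_⟩ <;> simp [hij, hij.symm]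
  have hx : ∀ t : F, x + t • y ≠ 0 := by
    intro t h0
    have := congrArg φ h0
    rw [map_add, map_smul, e11, e12, smul_zero, add_zero, map_zero] at this
    exact one_ne_zero this
  have hφ : ∀ q : F, φ + q • ψ ≠ 0 := by
    intro q h0
    have := congrArg (fun l : V →ₗ[F] F => l x) h0
    simp only [LinearMap.add_apply, LinearMap.smul_apply, e11, e21, smul_zero, add_zero,
      LinearMap.zero_apply] at this
    exact one_ne_zero this
  obtain ⟨τ₀, hτ₀⟩ : ∃ τ₀ : Fˣ, (τ₀ : F) ∈ traces (f.smulRight w) G := by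
    obtain ⟨z, hz⟩ := exists_ne hf
    have hz0 : z ≠ 0 := by
      rintro rfl
      exact hz (map_zero f)
    obtain ⟨g, hg, t, ht, hgt⟩ := line_trans h1 hw hz0
    have hne : f (g w) ≠ 0 := by
      rw [hgt, map_smul, smul_eq_mul]
      exact mul_ne_zero ht hz
    exact ⟨Units.mk0 _ hne, mem_traces hg⟩
  choose g hg s hs hgs using fun t => line_trans h1 hw (hx t)
  choose h hh r hr hhr using fun q => hyper_trans h2 hf (hφ q)
  have main : ∀ (q t : F) (z : Fˣ), (z : F) = 1 + q * t →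
      ∃ τ ∈ Λ, z = Units.mk0 (r q) (hr q) * (Units.mk0 (s t) (hs t))⁻¹ * τ₀ * τ := by
    intro q t z hz
    have h3 : (z : F) = r q * (s t)⁻¹ * f ((h q * g t : V ≃ₗ[F] V) w) := by
      have h4 : (φ + q • ψ) (x + t • y) = 1 + q * t := by
        simp only [LinearMap.add_apply, LinearMap.smul_apply, map_add, map_smul, e11, e12, e21, e22,
          smul_eq_mul]
        ring
      have h5 : x + t • y = (s t)⁻¹ • g t w := by
        rw [hgs, smul_smul, inv_mul_cancel₀ (hs t), one_smul]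
      rw [hz, ← h4, hhr, h5, map_smul, map_smul, smul_eq_mul, LinearEquiv.mul_apply]
      ring
    have h6 : f ((h q * g t : V ≃ₗ[F] V) w) ≠ 0 := by
      intro h0
      rw [h0, mul_zero] at h3
      exact z.ne_zero h3
    refine ⟨Units.mk0 _ h6 * τ₀⁻¹, Subgroup.subset_closure ?_, ?_⟩
    · refine ⟨_, mem_traces (mul_mem (hh q) (hg t)), _, hτ₀, ?_⟩
      rw [Units.val_mul, Units.val_mk0, Units.val_inv_eq_inv_val, div_eq_mul_inv]
    · apply Units.ext
      rw [h3]
      simp
      field_simp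
  have hmem : ∀ q t : F, Units.mk0 (r q) (hr q) * (Units.mk0 (s t) (hs t))⁻¹ * τ₀ ∈ Λ := by
    have a1 : ∀ t : F, Units.mk0 (r 0) (hr 0) * (Units.mk0 (s t) (hs t))⁻¹ * τ₀ ∈ Λ := by
      intro t
      obtain ⟨τ, hτ, he⟩ := main 0 t 1 (by simp)
      rw [eq_comm, mul_eq_one_iff_eq_inv] at he
      rw [he]
      exact inv_mem hτ
    have a2 : ∀ q : F, Units.mk0 (r q) (hr q) * (Units.mk0 (s 0) (hs 0))⁻¹ * τ₀ ∈ Λ := by
      intro q
      obtain ⟨τ, hτ, he⟩ := main q 0 1 (by simp)
      rw [eq_comm, mul_eq_one_iff_eq_inv] at he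
      rw [he]
      exact inv_mem hτ
    intro q t
    have e : Units.mk0 (r q) (hr q) * (Units.mk0 (s t) (hs t))⁻¹ * τ₀ =
        (Units.mk0 (r q) (hr q) * (Units.mk0 (s 0) (hs 0))⁻¹ * τ₀) *
        (Units.mk0 (r 0) (hr 0) * (Units.mk0 (s 0) (hs 0))⁻¹ * τ₀)⁻¹ *
        (Units.mk0 (r 0) (hr 0) * (Units.mk0 (s t) (hs t))⁻¹ * τ₀) := by
      group
    rw [e]
    exact mul_mem (mul_mem (a2 q) (inv_mem (a2 0))) (a1 t)
  have key : ∀ (q t : F), ∀ z : Fˣ, (z : F) = 1 + q * t → z ∈ Λ := by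
    intro q t z hz
    obtain ⟨τ, hτ, he⟩ := main q t z hz
    rw [he]
    exact mul_mem (hmem q t) hτ
  exact key ((u : F) - 1) 1 u (by ring)

/-- Groups transitive on nonzero vectors. -/
theorem of_vectors {a : Module.End F V} (hn : 2 ≤ finrank F V)
    (ha : finrank F (LinearMap.range a) = 1) {G : Subgroup (V ≃ₗ[F] V)}
    (h1 : ∀ x y : V, x ≠ 0 → y ≠ 0 → ∃ g ∈ G, g x = y) (h2 : TransOn G (finrank F V - 1)) :
    IsAutPair a G := by
  rw [crit hn ha]
  refine ⟨?_, h2, fun c hc => ?_⟩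
  · intro U W hU hW
    obtain ⟨⟨x, hx⟩, hx0, hxU⟩ := finrank_eq_one_iff'.1 hU
    obtain ⟨⟨y, hy⟩, hy0, hyW⟩ := finrank_eq_one_iff'.1 hW
    obtain ⟨g, hg, hgx⟩ := h1 x y (fun h => hx0 (Subtype.ext h)) (fun h => hy0 (Subtype.ext h))
    refine ⟨g, hg, ?_⟩
    apply le_antisymm
    · rintro _ ⟨z, hz, rfl⟩
      obtain ⟨c, hc⟩ := hxU ⟨z, hz⟩
      have hc' : c • x = z := congrArg Subtype.val hc
      rw [← hc']
      simp only [LinearEquiv.coe_coe, map_smul, hgx]
      exact W.smul_mem _ hy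
    · intro z hz
      obtain ⟨c, hc⟩ := hyW ⟨z, hz⟩
      have hc' : c • y = z := congrArg Subtype.val hc
      refine ⟨c • x, U.smul_mem _ hx, ?_⟩
      simp only [LinearEquiv.coe_coe, map_smul, hgx]
      exact hc'
  · obtain ⟨w, f, hw, hf, rfl⟩ := exists_form ha
    obtain ⟨y, hy⟩ := exists_ne hf
    have hy' : (c / f y) • y ≠ 0 := by
      refine smul_ne_zero (div_ne_zero hc hy) ?_
      rintro rfl
      exact hy (map_zero f)
    obtain ⟨g, hg, hgw⟩ := h1 w _ hw hy'
    refine Submonoid.subset_closure ?_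
    have := mem_traces (w := w) (f := f) hg
    rw [hgw, map_smul, smul_eq_mul, div_mul_cancel₀ _ hy] at this
    exact this

end Pool.Agent.P2a19dr
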