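import Pool.Agent.Lib.P2a19dr.Real

/-!
Endomorphisms of rank one and groups containing a connected group.
-/

set_option autoImplicit false

namespace Pool.Agent.P2a19dr

open Module Pool.Agent.P2a19db

section general

variable {F W : Type*} [Field F] [AddCommGroup W] [Module F W]

lemma gen_mul_le {a : Module.End F W} {G : Subgroup (W ≃ₗ[F] W)} {g : W ≃ₗ[F] W} (hg : g ∈ G) :
    gen ((g : W →ₗ[F] W) * a) G ≤ gen a G := by
  refine Subsemigroup.closure_le.2 ?_
  rintro x (hx | hx)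
  · rw [Set.mem_singleton_iff.1 hx]
    exact mul_mem (g_mem hg) a_mem
  · obtain ⟨k, hk, rfl⟩ := hx
    exact g_mem hk

lemma gen_mul {a : Module.End F W} {G : Subgroup (W ≃ₗ[F] W)} {g : W ≃ₗ[F] W} (hg : g ∈ G) :
    gen ((g : W →ₗ[F] W) * a) G = gen a G := by
  refine le_antisymm (gen_mul_le hg) ?_
  have h := gen_mul_le (a := (g : W →ₗ[F] W) * a) (G := G) (inv_mem hg)
  rw [← mul_assoc, ← coe_mul', inv_mul_cancel] at h
  exact h

lemma pair_mul {a : Module.End F W} {G : Subgroup (W ≃ₗ[F] W)} {g : W ≃ₗ[F] W} (hg : g ∈ G) :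
    IsAutPair ((g : W →ₗ[F] W) * a) G ↔ IsAutPair a G := by
  unfold IsAutPair
  rw [gen_mul hg, gen_mul (G := ⊤) trivial]

lemma pair_mono'' {a : Module.End F W} (hK : LinearMap.ker a ≠ ⊥) {G K : Subgroup (W ≃ₗ[F] W)}
    (hKG : K ≤ G) (h : IsAutPair a K) : IsAutPair a G := by
  unfold IsAutPair at h ⊢
  apply Set.eq_of_subset_of_subset
  · rintro x ⟨hx, hxG⟩
    obtain ⟨v, hv, hxv⟩ := exists_ker_of_mem hK hx hxG
    exact ⟨gen_mono le_top hx, not_unit_of_kernel hv hxv ⊤⟩
  · intro x hx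
    have hx' := hx
    rw [← h] at hx'
    refine ⟨gen_mono hKG hx'.1, ?_⟩
    rintro ⟨g, hg, e⟩
    exact hx.2 ⟨g, trivial, e⟩

end general

variable {V : Type*} [AddCommGroup V] [Module ℝ V] [FiniteDimensional ℝ V]

/-- The criterion for the groups containing a connected group which is transitive on lines and on
hyperplanes. -/
theorem crit_contains {ι : Type*} [Fintype ι] [DecidableEq ι] (b : Basis ι ℝ V)
    {a : Module.End ℝ V} (hn : 2 ≤ finrank ℝ V)
    (ha : finrank ℝ (LinearMap.range a) = 1) {G H : Subgroup (V ≃ₗ[ℝ] V)} (hHG : H ≤ G)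
    (hH : IsConnected {M : Matrix ι ι ℝ | ∃ g ∈ H, LinearMap.toMatrix b b (g : V →ₗ[ℝ] V) = M})
    (h1 : TransOn H 1) (h2 : TransOn H (finrank ℝ V - 1)) :
    IsAutPair a G ↔ ∃ t ∈ traces a G, 1 < |t| := by
  constructor
  · intro hp
    have h3 := ((crit hn ha G).1 hp).2.2 2 two_ne_zero
    by_contra hcon
    push Not at hcon
    have key : ∀ c ∈ Submonoid.closure (traces a G), |c| ≤ 1 := by
      intro c hc
      induction hc using Submonoid.closure_induction with
      | mem x hx => exact hcon x hx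
      | one => rw [abs_one]
      | mul x y _ _ hx hy => rw [abs_mul]; exact mul_le_one₀ hx (abs_nonneg y) hy
    have h4 := key 2 h3
    rw [abs_two] at h4
    norm_num at h4
  · rintro ⟨t, ⟨g, hg, rfl⟩, ht⟩
    rw [← pair_mul hg]
    have hr : finrank ℝ (LinearMap.range ((g : V →ₗ[ℝ] V) * a : Module.End ℝ V)) = 1 := by
      rw [finrank_range_equiv_mul, ha]
    have hker : LinearMap.ker ((g : V →ₗ[ℝ] V) * a : Module.End ℝ V) ≠ ⊥ := by
      intro h0
      have h5 := LinearMap.finrank_range_add_finrank_ker ((g : V →ₗ[ℝ] V) * a : Module.End ℝ V)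
      rw [hr, h0, finrank_bot] at h5
      omega
    refine pair_mono'' hker hHG ((crit_connected b hn hr hH).2 ⟨h1, h2, _, ⟨1, one_mem _, rfl⟩, ?_⟩)
    exact ht

end Pool.Agent.P2a19dr
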