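import Pool.Agent.Lib.P2a19dr.Crit

/-!
Endomorphisms of rank one and connected groups over the real numbers.
-/

set_option autoImplicit false

namespace Pool.Agent.P2a19dr

open Module Pool.Agent.P2a19db

variable {V : Type*} [AddCommGroup V] [Module ℝ V] [FiniteDimensional ℝ V]

lemma zero_mem_traces {a : Module.End ℝ V} (hn : 2 ≤ finrank ℝ V)
    (ha : finrank ℝ (LinearMap.range a) = 1) {G : Subgroup (V ≃ₗ[ℝ] V)} (h1 : TransOn G 1) :
    (0 : ℝ) ∈ traces a G := by
  obtain ⟨w, f, hw, hf, rfl⟩ := exists_form ha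
  have d1 := Module.Dual.finrank_ker_add_one_of_ne_zero hf
  have h2 : LinearMap.ker f ≠ ⊥ := by
    intro h0
    rw [h0, finrank_bot] at d1
    omega
  obtain ⟨x, hx, hx0⟩ := (Submodule.ne_bot_iff _).1 h2
  obtain ⟨g, hg, t, ht, hgt⟩ := line_trans h1 hw hx0
  have h3 := mem_traces (w := w) (f := f) hg
  rw [hgt, map_smul, LinearMap.mem_ker.1 hx, smul_zero] at h3
  exact h3

lemma exists_neg {a : Module.End ℝ V} (hn : 2 ≤ finrank ℝ V)
    (ha : finrank ℝ (LinearMap.range a) = 1) {G : Subgroup (V ≃ₗ[ℝ] V)} (h1 : TransOn G 1)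
    (h2 : TransOn G (finrank ℝ V - 1)) : ∃ t ∈ traces a G, t < 0 := by
  by_contra hcon
  push Not at hcon
  have h3 := traces_generate hn ha h1 h2 (-1 : ℝˣ)
  have h4 : ∀ u ∈ Subgroup.closure {u : ℝˣ | ∃ s ∈ traces a G, ∃ t ∈ traces a G, (u : ℝ) = s / t},
      0 < (u : ℝ) := by
    intro u hu
    induction hu using Subgroup.closure_induction with
    | mem x hx =>
      obtain ⟨s, hs, t, ht, he⟩ := hx
      refine lt_of_le_of_ne ?_ (Ne.symm x.ne_zero)
      rw [he]
      exact div_nonneg (hcon s hs) (hcon t ht)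
    | one => simp
    | mul x y hx hy ihx ihy =>
      rw [Units.val_mul]
      exact mul_pos ihx ihy
    | inv x hx ihx =>
      rw [Units.val_inv_eq_inv_val]
      exact inv_pos.2 ihx
  have h5 := h4 _ h3
  rw [Units.val_neg, Units.val_one] at h5
  linarith

/-- The criterion for groups whose traces form an interval. -/
theorem crit_interval {a : Module.End ℝ V} (hn : 2 ≤ finrank ℝ V)
    (ha : finrank ℝ (LinearMap.range a) = 1) {G : Subgroup (V ≃ₗ[ℝ] V)}
    (hT : (traces a G).OrdConnected) :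
    IsAutPair a G ↔ TransOn G 1 ∧ TransOn G (finrank ℝ V - 1) ∧ ∃ t ∈ traces a G, 1 < |t| := by
  rw [crit hn ha]
  constructor
  · rintro ⟨h1, h2, h3⟩
    refine ⟨h1, h2, ?_⟩
    by_contra hcon
    push Not at hcon
    have h4 : ∀ c ∈ Submonoid.closure (traces a G), |c| ≤ 1 := by
      intro c hc
      induction hc using Submonoid.closure_induction with
      | mem x hx => exact hcon x hx
      | one => simp
      | mul x y hx hy ihx ihy =>
        rw [abs_mul]
        exact mul_le_one₀ ihx (abs_nonneg _) ihy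
    have h5 := h4 2 (h3 2 (by norm_num))
    norm_num at h5
  · rintro ⟨h1, h2, t, ht, ht1⟩
    refine ⟨h1, h2, ?_⟩
    have h0 := zero_mem_traces hn ha h1
    obtain ⟨ν, hν, hνneg⟩ := exists_neg hn ha h1 h2
    have hsub : ∀ x ∈ traces a G, x ∈ Submonoid.closure (traces a G) :=
      fun x hx => Submonoid.subset_closure hx
    obtain ⟨σ, hσ1, hσ⟩ : ∃ σ : ℝ, 1 < σ ∧ ∀ y : ℝ, 0 ≤ y → y ≤ σ →
        y ∈ Submonoid.closure (traces a G) := by
      rcases lt_abs.1 ht1 with h | h
      · exact ⟨t, h, fun y hy0 hy => hsub y (hT.out h0 ht ⟨hy0, hy⟩)⟩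
      · have htneg : t < 0 := by linarith
        refine ⟨t * t, by nlinarith, fun y hy0 hy => ?_⟩
        have htne : t ≠ 0 := htneg.ne
        have e : y = t * (y / t) := by
          field_simp
        rw [e]
        refine mul_mem (hsub t ht) (hsub _ (hT.out ht h0 ⟨?_, ?_⟩))
        · rw [le_div_iff_of_neg htneg]
          exact hy
        · exact div_nonpos_of_nonneg_of_nonpos hy0 htneg.le
    have hpos : ∀ y : ℝ, 0 ≤ y → y ∈ Submonoid.closure (traces a G) := by
      intro y hy
      obtain ⟨k, hk⟩ := pow_unbounded_of_one_lt y hσ1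
      have hσk : 0 < σ ^ k := pow_pos (by linarith) k
      have e : y = (y / σ ^ k) * σ ^ k := by
        field_simp
      rw [e]
      refine mul_mem (hσ _ (div_nonneg hy hσk.le) ?_) (pow_mem (hσ σ (by linarith) le_rfl) k)
      have : y / σ ^ k ≤ 1 := by
        rw [div_le_one hσk]
        exact hk.le
      linarith
    intro c hc
    rcases le_total 0 c with h | h
    · exact hpos c h
    · have hνne : ν ≠ 0 := hνneg.ne
      have e : c = ν * (c / ν) := by
        field_simp
      rw [e]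
      exact mul_mem (hsub ν hν) (hpos _ (div_nonneg_of_nonpos h hνneg.le))

/-- The criterion for connected groups. -/
theorem crit_connected {ι : Type*} [Fintype ι] [DecidableEq ι] (b : Basis ι ℝ V)
    {a : Module.End ℝ V} (hn : 2 ≤ finrank ℝ V)
    (ha : finrank ℝ (LinearMap.range a) = 1) {G : Subgroup (V ≃ₗ[ℝ] V)}
    (hG : IsConnected {M : Matrix ι ι ℝ | ∃ g ∈ G, LinearMap.toMatrix b b (g : V →ₗ[ℝ] V) = M}) :
    IsAutPair a G ↔ TransOn G 1 ∧ TransOn G (finrank ℝ V - 1) ∧ ∃ t ∈ traces a G, 1 < |t| := by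
  refine crit_interval hn ha ?_
  have e : traces a G = (fun M : Matrix ι ι ℝ => (M * LinearMap.toMatrix b b a).trace) ''
      {M : Matrix ι ι ℝ | ∃ g ∈ G, LinearMap.toMatrix b b (g : V →ₗ[ℝ] V) = M} := by
    ext t
    constructor
    · rintro ⟨g, hg, rfl⟩
      refine ⟨_, ⟨g, hg, rfl⟩, ?_⟩
      beta_reduce
      rw [← LinearMap.toMatrix_comp, ← LinearMap.trace_eq_matrix_trace]
    · rintro ⟨_, ⟨g, hg, rfl⟩, rfl⟩
      refine ⟨g, hg, ?_⟩
      beta_reduce
      rw [← LinearMap.toMatrix_comp, ← LinearMap.trace_eq_matrix_trace]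
  rw [e]
  refine (hG.isPreconnected.image _ ?_).ordConnected
  exact ((continuous_id.matrix_mul continuous_const).matrix_trace).continuousOn

end Pool.Agent.P2a19dr
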